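import Mathlib

set_option autoImplicit false

/-!
# The complex deltoid

The curve `u²v² - 4u³ - 4v³ + 18uv - 27 = 0` is parametrised injectively by `z ≠ 0`,
`u = 2z + z⁻²`, `v = z² + 2z⁻¹`.  It is the discriminant of `X³ - uX² + vX - 1`.
-/

namespace Pool.Agent.J6H59.Deltoid

open MvPolynomial

/-- The polynomial of the deltoid. -/
noncomputable def f : MvPolynomial (Fin 2) ℂ :=
  X 0 ^ 2 * X 1 ^ 2 - 4 * X 0 ^ 3 - 4 * X 1 ^ 3 + 18 * X 0 * X 1 - 27

/-- First coordinate of the parametrisation. -/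
noncomputable def gu (z : ℂ) : ℂ := 2 * z + (z⁻¹) ^ 2

/-- Second coordinate of the parametrisation. -/
noncomputable def gv (z : ℂ) : ℂ := z ^ 2 + 2 * z⁻¹

lemma eval_f (q : Fin 2 → ℂ) :
    MvPolynomial.eval q f = q 0 ^ 2 * q 1 ^ 2 - 4 * q 0 ^ 3 - 4 * q 1 ^ 3 + 18 * q 0 * q 1 - 27 := by
  have h4 : (4 : MvPolynomial (Fin 2) ℂ) = C 4 := (map_ofNat C 4).symm
  have h18 : (18 : MvPolynomial (Fin 2) ℂ) = C 18 := (map_ofNat C 18).symm
  have h27 : (27 : MvPolynomial (Fin 2) ℂ) = C 27 := (map_ofNat C 27).symm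
  rw [f, h4, h18, h27]
  simp

/-- Points of the curve are exactly the points of the parametrisation. -/
lemma param (u v : ℂ) (h : u ^ 2 * v ^ 2 - 4 * u ^ 3 - 4 * v ^ 3 + 18 * u * v - 27 = 0) :
    ∃ z : ℂ, z ≠ 0 ∧ gu z = u ∧ gv z = v := by
  -- a root of the cubic
  obtain ⟨a, ha⟩ : ∃ a : ℂ, a ^ 3 - u * a ^ 2 + v * a - 1 = 0 := by
    have hdeg : (Polynomial.X ^ 3 - Polynomial.C u * Polynomial.X ^ 2 + Polynomial.C v * Polynomial.X
        - Polynomial.C 1 : Polynomial ℂ).degree = 3 := by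
      compute_degree!
    obtain ⟨a, ha⟩ := IsAlgClosed.exists_root (Polynomial.X ^ 3 - Polynomial.C u * Polynomial.X ^ 2
      + Polynomial.C v * Polynomial.X - Polynomial.C 1 : Polynomial ℂ) (by rw [hdeg]; decide)
    refine ⟨a, ?_⟩
    simpa [Polynomial.IsRoot] using ha
  obtain ⟨s, hs⟩ := IsAlgClosed.exists_pow_nat_eq ((a - u) ^ 2 - 4 * (a ^ 2 - u * a + v))
    (n := 2) (by norm_num)
  set b : ℂ := (u - a + s) / 2 with hb
  set c : ℂ := (u - a - s) / 2 with hc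
  have e1 : u = a + b + c := by rw [hb, hc]; ring
  have e2 : v = a * b + b * c + c * a := by
    have : b * c = a ^ 2 - u * a + v := by
      rw [hb, hc]; linear_combination (-1 / 4 : ℂ) * hs
    linear_combination -this - a * e1
  have e3 : a * b * c = 1 := by
    rw [e1, e2] at ha
    linear_combination ha
  have key : ((a - b) * (b - c) * (c - a)) ^ 2 = 0 := by
    have h27 : (a * b * c) ^ 2 = 1 := by rw [e3]; norm_num
    rw [e1, e2] at h
    linear_combination h + (- 27) * h27 + (18 * (a + b + c) * (a * b + b * c + c * a)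
        - 4 * (a + b + c) ^ 3) * e3
  have ha0 : a ≠ 0 := by rintro rfl; simp at e3
  have hb0 : b ≠ 0 := by rintro h0; rw [h0] at e3; simp at e3
  have hc0 : c ≠ 0 := by rintro h0; rw [h0] at e3; simp at e3
  have key2 : (a - b) * (b - c) * (c - a) = 0 := by
    exact pow_eq_zero_iff (two_ne_zero) |>.mp key
  have fin : ∀ x y : ℂ, x ≠ 0 → x * x * y = 1 → u = x + x + y → v = x * x + x * y + y * x →
      ∃ z : ℂ, z ≠ 0 ∧ gu z = u ∧ gv z = v := by
    intro x y hx hxy hu hv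
    refine ⟨x, hx, ?_, ?_⟩
    · rw [gu, hu]
      field_simp
      linear_combination -hxy
    · rw [gv, hv]
      field_simp
      linear_combination (-2 : ℂ) * hxy
  rcases mul_eq_zero.mp key2 with h1 | h1
  · rcases mul_eq_zero.mp h1 with h2 | h2
    · have hab : b = a := (sub_eq_zero.mp h2).symm
      refine fin a c ha0 ?_ ?_ ?_
      · rw [hab] at e3; exact e3
      · rw [hab] at e1; exact e1
      · rw [hab] at e2; rw [e2]
    · have hbc : c = b := (sub_eq_zero.mp h2).symm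
      refine fin b a hb0 ?_ ?_ ?_
      · rw [hbc] at e3; rw [← e3]; ring
      · rw [hbc] at e1; rw [e1]; ring
      · rw [hbc] at e2; rw [e2]; ring
  · have hca : c = a := sub_eq_zero.mp h1
    refine fin a b ha0 ?_ ?_ ?_
    · rw [hca] at e3; rw [← e3]; ring
    · rw [hca] at e1; rw [e1]; ring
    · rw [hca] at e2; rw [e2]; ring

lemma param_mem (z : ℂ) (hz : z ≠ 0) :
    gu z ^ 2 * gv z ^ 2 - 4 * gu z ^ 3 - 4 * gv z ^ 3 + 18 * gu z * gv z - 27 = 0 := by
  rw [gu, gv]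
  field_simp
  ring

lemma gu_eq {z : ℂ} (hz : z ≠ 0) : gu z * z ^ 2 = 2 * z ^ 3 + 1 := by
  rw [gu]; field_simp

lemma gv_eq {z : ℂ} (hz : z ≠ 0) : gv z * z = z ^ 3 + 2 := by
  rw [gv]; field_simp

lemma injective_param {z w : ℂ} (hz : z ≠ 0) (hw : w ≠ 0) (hu : gu z = gu w) (hv : gv z = gv w) :
    z = w := by
  -- `(z - w)` divides; the cubic with roots z, z, z⁻² equals the cubic with roots w, w, w⁻²
  have cub : ∀ x : ℂ, x ^ 3 - gu z * x ^ 2 + gv z * x - 1 = (x - z) ^ 2 * (x - (z⁻¹) ^ 2) := by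
    intro x
    rw [gu, gv]
    field_simp
    ring
  have cub' : ∀ x : ℂ, x ^ 3 - gu w * x ^ 2 + gv w * x - 1 = (x - w) ^ 2 * (x - (w⁻¹) ^ 2) := by
    intro x
    rw [gu, gv]
    field_simp
    ring
  by_contra hne
  have h1 : (w - z) ^ 2 * (w - (z⁻¹) ^ 2) = 0 := by
    rw [← cub w, hu, hv, cub' w]; ring
  have h2 : (z - w) ^ 2 * (z - (w⁻¹) ^ 2) = 0 := by
    rw [← cub' z, ← hu, ← hv, cub z]; ring
  have hwz : (w - z) ^ 2 ≠ 0 := pow_ne_zero 2 (sub_ne_zero.mpr (Ne.symm hne))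
  have hzw : (z - w) ^ 2 ≠ 0 := pow_ne_zero 2 (sub_ne_zero.mpr hne)
  have h3 : w = (z⁻¹) ^ 2 := sub_eq_zero.mp ((mul_eq_zero.mp h1).resolve_left hwz)
  have h4 : z = (w⁻¹) ^ 2 := sub_eq_zero.mp ((mul_eq_zero.mp h2).resolve_left hzw)
  have h5 : w * z ^ 2 = 1 := by rw [h3]; field_simp
  have h6 : z * w ^ 2 = 1 := by
    conv_lhs => rw [h4]
    field_simp
  have h7 : z * w * (z - w) = 0 := by linear_combination h5 - h6
  have h8 : z * w ≠ 0 := mul_ne_zero hz hw
  exact hne (sub_eq_zero.mp ((mul_eq_zero.mp h7).resolve_left h8))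

end Pool.Agent.J6H59.Deltoid
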