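import Mathlib
import Pool.Agent.J6H59.Deltoid.Algebra

set_option autoImplicit false

/-!
# Irreducibility of the polynomial of the deltoid
-/

namespace Pool.Agent.J6H59.Deltoid

open MvPolynomial

/-- No polynomial `r(v)` satisfies the cubic equation. -/
lemma no_root (r : Polynomial ℂ)
    (h : 4 * r ^ 3 - Polynomial.X ^ 2 * r ^ 2 - 18 * Polynomial.X * r + 4 * Polynomial.X ^ 3 + 27
      = 0) : False := by
  have h27 : (27 : Polynomial ℂ) = Polynomial.C 27 := (map_ofNat Polynomial.C 27).symm
  have h4 : (4 : Polynomial ℂ) = Polynomial.C 4 := (map_ofNat Polynomial.C 4).symm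
  have h18 : (18 : Polynomial ℂ) = Polynomial.C 18 := (map_ofNat Polynomial.C 18).symm
  set q : Polynomial ℂ := 4 * r - Polynomial.X ^ 2 with hq
  have hmain : r * (r * q - 18 * Polynomial.X) = -(4 * Polynomial.X ^ 3 + 27) := by
    rw [hq]; linear_combination h
  have hR : (-(4 * Polynomial.X ^ 3 + 27) : Polynomial ℂ).natDegree = 3 := by
    rw [h4, h27]; compute_degree!
  have hR0 : (-(4 * Polynomial.X ^ 3 + 27) : Polynomial ℂ) ≠ 0 := by
    intro h0; rw [h0] at hR; simp at hR
  have hr0 : r ≠ 0 := by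
    rintro rfl; rw [zero_mul] at hmain; exact hR0 hmain.symm
  have hs0 : r * q - 18 * Polynomial.X ≠ 0 := by
    intro h0; rw [h0, mul_zero] at hmain; exact hR0 hmain.symm
  have hdeg : r.natDegree + (r * q - 18 * Polynomial.X).natDegree = 3 := by
    rw [← Polynomial.natDegree_mul hr0 hs0, hmain, hR]
  have h18X : (18 * Polynomial.X : Polynomial ℂ).natDegree = 1 := by
    rw [h18]; compute_degree!
  by_cases hq0 : q = 0
  · have hev := congrArg (Polynomial.eval 0) h
    have h4r : 4 * r = Polynomial.X ^ 2 := by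
      rw [hq] at hq0; linear_combination hq0
    have hr : r = Polynomial.C (1 / 4) * Polynomial.X ^ 2 := by
      have : Polynomial.C (1 / 4 : ℂ) * (4 : Polynomial ℂ) = 1 := by
        rw [h4, ← Polynomial.C_mul]; norm_num
      calc r = (Polynomial.C (1 / 4 : ℂ) * (4 : Polynomial ℂ)) * r := by rw [this, one_mul]
        _ = Polynomial.C (1 / 4) * (4 * r) := by ring
        _ = _ := by rw [h4r]
    rw [hr] at hev
    simp at hev
  · have hprod : (r * q).natDegree = r.natDegree + q.natDegree := Polynomial.natDegree_mul hr0 hq0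
    by_cases hd : r.natDegree ≤ 1
    · have hqd : q.natDegree = 2 := by
        rw [hq, h4]
        have h1 : (Polynomial.C 4 * r).natDegree < (Polynomial.X ^ 2 : Polynomial ℂ).natDegree := by
          rw [Polynomial.natDegree_X_pow]
          calc (Polynomial.C 4 * r).natDegree ≤ r.natDegree := Polynomial.natDegree_C_mul_le _ _
            _ < 2 := by omega
        rw [Polynomial.natDegree_sub_eq_right_of_natDegree_lt h1, Polynomial.natDegree_X_pow]
      have h2 : (r * q - 18 * Polynomial.X).natDegree = r.natDegree + 2 := by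
        rw [Polynomial.natDegree_sub_eq_left_of_natDegree_lt, hprod, hqd]
        rw [h18X, hprod, hqd]; omega
      omega
    · have h2 : (r * q - 18 * Polynomial.X).natDegree = r.natDegree + q.natDegree := by
        rw [Polynomial.natDegree_sub_eq_left_of_natDegree_lt, hprod]
        rw [h18X, hprod]; omega
      omega

lemma irreducible_f : Irreducible f := by
  rw [← MulEquiv.irreducible_iff (finSuccEquiv ℂ 1)]
  have h4 : (4 : MvPolynomial (Fin 1) ℂ) = C 4 := (map_ofNat C 4).symm
  have hu : IsUnit (Polynomial.C (C (-(1 / 4) : ℂ)) : Polynomial (MvPolynomial (Fin 1) ℂ)) := by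
    apply IsUnit.map
    apply IsUnit.map
    simp
  set P : Polynomial (MvPolynomial (Fin 1) ℂ) :=
    Polynomial.X ^ 3 + (Polynomial.C (-(C (1 / 4) * X 0 ^ 2)) * Polynomial.X ^ 2
      + Polynomial.C (-(C (9 / 2) * X 0)) * Polynomial.X
      + Polynomial.C (X 0 ^ 3 + C (27 / 4))) with hP
  have himg : (finSuccEquiv ℂ 1) f = Polynomial.C (C (-4 : ℂ)) * P := by
    have e0 : (finSuccEquiv ℂ 1) (X 0) = Polynomial.X := finSuccEquiv_X_zero
    have e1 : (finSuccEquiv ℂ 1) (X 1) = Polynomial.C (X 0) := by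
      have := finSuccEquiv_X_succ (R := ℂ) (n := 1) (j := 0)
      simpa using this
    rw [f, hP]
    simp only [map_sub, map_add, map_mul, map_pow, e0, e1, map_ofNat]
    simp only [Polynomial.C_neg, Polynomial.C_mul, Polynomial.C_pow]
    have c1 : (Polynomial.C (C (-4 : ℂ)) : Polynomial (MvPolynomial (Fin 1) ℂ)) = -4 := by
      have : (C (-4 : ℂ) : MvPolynomial (Fin 1) ℂ) = -4 := by
        rw [C_neg]; congr 1
      rw [this, Polynomial.C_neg]; congr 1
    have c2 : (Polynomial.C (C (1 / 4 : ℂ)) : Polynomial (MvPolynomial (Fin 1) ℂ)) * 4 = 1 := by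
      have : (4 : Polynomial (MvPolynomial (Fin 1) ℂ)) = Polynomial.C (C 4) := by
        rw [show (C (4 : ℂ) : MvPolynomial (Fin 1) ℂ) = 4 from map_ofNat C 4]
        exact (map_ofNat Polynomial.C 4).symm
      rw [this, ← Polynomial.C_mul, ← C_mul]; norm_num
    have c3 : (Polynomial.C (C (9 / 2 : ℂ)) : Polynomial (MvPolynomial (Fin 1) ℂ)) * 4 = 18 := by
      have : (4 : Polynomial (MvPolynomial (Fin 1) ℂ)) = Polynomial.C (C 4) := by
        rw [show (C (4 : ℂ) : MvPolynomial (Fin 1) ℂ) = 4 from map_ofNat C 4]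
        exact (map_ofNat Polynomial.C 4).symm
      rw [this, ← Polynomial.C_mul, ← C_mul]
      rw [show (9 / 2 * 4 : ℂ) = 18 by norm_num]
      rw [show (C (18 : ℂ) : MvPolynomial (Fin 1) ℂ) = 18 from map_ofNat C 18]
      exact map_ofNat Polynomial.C 18
    have c4 : (Polynomial.C (C (27 / 4 : ℂ)) : Polynomial (MvPolynomial (Fin 1) ℂ)) * 4 = 27 := by
      have : (4 : Polynomial (MvPolynomial (Fin 1) ℂ)) = Polynomial.C (C 4) := by
        rw [show (C (4 : ℂ) : MvPolynomial (Fin 1) ℂ) = 4 from map_ofNat C 4]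
        exact (map_ofNat Polynomial.C 4).symm
      rw [this, ← Polynomial.C_mul, ← C_mul]
      rw [show (27 / 4 * 4 : ℂ) = 27 by norm_num]
      rw [show (C (27 : ℂ) : MvPolynomial (Fin 1) ℂ) = 27 from map_ofNat C 27]
      exact map_ofNat Polynomial.C 27
    rw [c1]
    linear_combination (-(Polynomial.C (X 0)) ^ 2 * Polynomial.X ^ 2) * c2
      - (Polynomial.C (X 0)) * Polynomial.X * c3 + c4
  have hu4 : IsUnit (Polynomial.C (C (-4 : ℂ)) : Polynomial (MvPolynomial (Fin 1) ℂ)) := by
    apply IsUnit.map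
    apply IsUnit.map
    simp
  rw [himg, irreducible_isUnit_mul hu4]
  have hmonic : P.Monic := by
    rw [hP]
    apply Polynomial.monic_X_pow_add
    compute_degree!
  have hdeg : P.natDegree = 3 := by
    rw [hP]
    compute_degree!
  rw [hmonic.irreducible_iff_roots_eq_zero_of_degree_le_three (by omega) (by omega)]
  rw [Multiset.eq_zero_iff_forall_notMem]
  intro r hr
  have hroot : P.eval r = 0 := (Polynomial.mem_roots'.mp hr).2
  rw [hP] at hroot
  simp only [Polynomial.eval_add, Polynomial.eval_pow, Polynomial.eval_X, Polynomial.eval_mul,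
    Polynomial.eval_C] at hroot
  have := congrArg (aeval (fun _ : Fin 1 => (Polynomial.X : Polynomial ℂ))) hroot
  simp only [map_add, map_mul, map_pow, map_neg, aeval_X, aeval_C, map_zero,
    Polynomial.algebraMap_eq] at this
  apply no_root (aeval (fun _ : Fin 1 => (Polynomial.X : Polynomial ℂ)) r)
  have d2 : (Polynomial.C (1 / 4 : ℂ)) * 4 = 1 := by
    have : (4 : Polynomial ℂ) = Polynomial.C 4 := (map_ofNat Polynomial.C 4).symm
    rw [this, ← Polynomial.C_mul]; norm_num
  have d3 : (Polynomial.C (9 / 2 : ℂ)) * 4 = 18 := by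
    have : (4 : Polynomial ℂ) = Polynomial.C 4 := (map_ofNat Polynomial.C 4).symm
    rw [this, ← Polynomial.C_mul]
    rw [show (9 / 2 * 4 : ℂ) = 18 by norm_num]
    exact map_ofNat Polynomial.C 18
  have d4 : (Polynomial.C (27 / 4 : ℂ)) * 4 = 27 := by
    have : (4 : Polynomial ℂ) = Polynomial.C 4 := (map_ofNat Polynomial.C 4).symm
    rw [this, ← Polynomial.C_mul]
    rw [show (27 / 4 * 4 : ℂ) = 27 by norm_num]
    exact map_ofNat Polynomial.C 27
  linear_combination 4 * this
    + (Polynomial.X ^ 2 * (aeval (fun _ : Fin 1 => (Polynomial.X : Polynomial ℂ)) r) ^ 2) * d2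
    + (Polynomial.X * (aeval (fun _ : Fin 1 => (Polynomial.X : Polynomial ℂ)) r)) * d3 - d4

end Pool.Agent.J6H59.Deltoid
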