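import Mathlib
import Pool.Agent.J6H59.Deltoid.Algebra

set_option autoImplicit false

/-!
# The deltoid is homeomorphic to the punctured plane, its fundamental group is cyclic
-/

namespace Pool.Agent.J6H59.Deltoid

open MvPolynomial Topology

/-- The parametrisation as a map to `ℂ²`. -/
noncomputable def gam (z : ℂ) : Fin 2 → ℂ := ![gu z, gv z]

@[simp] lemma gam_zero (z : ℂ) : gam z 0 = gu z := rfl
@[simp] lemma gam_one (z : ℂ) : gam z 1 = gv z := rfl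

lemma eval_gam (z : ℂ) (hz : z ≠ 0) : MvPolynomial.eval (gam z) f = 0 := by
  rw [eval_f]; exact param_mem z hz

lemma exists_gam (q : Fin 2 → ℂ) (hq : MvPolynomial.eval q f = 0) : ∃ z : ℂ, z ≠ 0 ∧ gam z = q := by
  rw [eval_f] at hq
  obtain ⟨z, hz, h1, h2⟩ := param _ _ hq
  refine ⟨z, hz, ?_⟩
  ext i
  fin_cases i
  · exact h1
  · exact h2

lemma gam_inj {z w : ℂ} (hz : z ≠ 0) (hw : w ≠ 0) (h : gam z = gam w) : z = w :=
  injective_param hz hw (congrFun h 0) (congrFun h 1)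

lemma continuousOn_gam : ContinuousOn gam {z : ℂ | z ≠ 0} := by
  have h : ContinuousOn (fun z : ℂ => z⁻¹) {z : ℂ | z ≠ 0} := continuousOn_inv₀
  apply continuousOn_pi.mpr
  intro i
  fin_cases i
  · show ContinuousOn gu _
    unfold gu
    exact ((continuousOn_const.mul continuousOn_id).add (h.pow 2))
  · show ContinuousOn gv _
    unfold gv
    exact ((continuousOn_id.pow 2).add (continuousOn_const.mul h))

/-- Bounds for the parameter on a bounded part of the curve. -/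
lemma bound_upper {z : ℂ} (hz : z ≠ 0) {M : ℝ} (hM : 1 ≤ M) (hu : ‖gu z‖ ≤ M) :
    ‖z‖ ≤ M := by
  by_contra hlt
  push Not at hlt
  have hz1 : 1 < ‖z‖ := lt_of_le_of_lt hM hlt
  have h1 : ‖(z⁻¹) ^ 2‖ ≤ 1 := by
    rw [norm_pow, norm_inv]
    apply pow_le_one₀ (by positivity)
    exact inv_le_one_of_one_le₀ hz1.le
  have h2 : 2 * ‖z‖ ≤ ‖gu z‖ + ‖(z⁻¹) ^ 2‖ := by
    have : (2 : ℂ) * z = gu z - (z⁻¹) ^ 2 := by rw [gu]; ring
    calc 2 * ‖z‖ = ‖(2 : ℂ) * z‖ := by rw [norm_mul]; simp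
      _ = ‖gu z - (z⁻¹) ^ 2‖ := by rw [this]
      _ ≤ _ := norm_sub_le _ _
  linarith

lemma bound_lower {z : ℂ} (hz : z ≠ 0) {M : ℝ} (hM : 1 ≤ M) (hv : ‖gv z‖ ≤ M) :
    M⁻¹ ≤ ‖z‖ := by
  by_contra hlt
  push Not at hlt
  have hM0 : 0 < M := by linarith
  have hzpos : 0 < ‖z‖ := norm_pos_iff.mpr hz
  have hz1 : M < ‖z⁻¹‖ := by
    rw [norm_inv]
    exact (lt_inv_comm₀ hzpos hM0).mp hlt
  have hzle : ‖z‖ < 1 := lt_of_lt_of_le hlt (inv_le_one_of_one_le₀ hM)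
  have h1 : ‖z ^ 2‖ ≤ 1 := by
    rw [norm_pow]
    exact pow_le_one₀ (by positivity) hzle.le
  have h2 : 2 * ‖z⁻¹‖ ≤ ‖gv z‖ + ‖z ^ 2‖ := by
    have : (2 : ℂ) * z⁻¹ = gv z - z ^ 2 := by rw [gv]; ring
    calc 2 * ‖z⁻¹‖ = ‖(2 : ℂ) * z⁻¹‖ := by rw [norm_mul]; simp
      _ = ‖gv z - z ^ 2‖ := by rw [this]
      _ ≤ _ := norm_sub_le _ _
  linarith

/-- The curve. -/
abbrev Crv : Set (Fin 2 → ℂ) := {z : Fin 2 → ℂ | MvPolynomial.eval z f = 0}

/-- The parametrisation as a map from the punctured plane to the curve. -/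
noncomputable def par (z : {z : ℂ // z ≠ 0}) : ↥Crv := ⟨gam z.1, eval_gam z.1 z.2⟩

lemma par_continuous : Continuous par := by
  apply Continuous.subtype_mk
  exact continuousOn_iff_continuous_domRestrict.mp continuousOn_gam

lemma par_injective : Function.Injective par := by
  intro z w h
  exact Subtype.ext (gam_inj z.2 w.2 (congrArg Subtype.val h))

lemma par_surjective : Function.Surjective par := by
  intro q
  obtain ⟨z, hz, h⟩ := exists_gam q.1 q.2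
  exact ⟨⟨z, hz⟩, Subtype.ext h⟩

lemma par_val_proper : IsProperMap (fun z : {z : ℂ // z ≠ 0} => gam z.1) := by
  rw [isProperMap_iff_isCompact_preimage]
  refine ⟨continuous_subtype_val.comp par_continuous, ?_⟩
  intro K hK
  rw [Subtype.isCompact_iff]
  obtain ⟨R, hR⟩ := hK.isBounded.exists_norm_le
  set M : ℝ := max R 1 with hM
  have hM1 : 1 ≤ M := le_max_right _ _
  have hM0 : 0 < M := by linarith
  have hA : IsClosed {z : ℂ | M⁻¹ ≤ ‖z‖ ∧ ‖z‖ ≤ M} :=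
    (isClosed_le continuous_const continuous_norm).inter
      (isClosed_le continuous_norm continuous_const)
  have hsub : {z : ℂ | M⁻¹ ≤ ‖z‖ ∧ ‖z‖ ≤ M} ⊆ {z : ℂ | z ≠ 0} := by
    rintro z ⟨h1, -⟩ h0
    rw [h0, norm_zero] at h1
    have : 0 < M⁻¹ := inv_pos.mpr hM0
    linarith
  have himg : (Subtype.val '' ((fun z : {z : ℂ // z ≠ 0} => gam z.1) ⁻¹' K))
      = {z : ℂ | M⁻¹ ≤ ‖z‖ ∧ ‖z‖ ≤ M} ∩ gam ⁻¹' K := by
    ext z
    constructor
    · rintro ⟨w, hw, rfl⟩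
      have hb : ‖gam w.1‖ ≤ M := (hR _ hw).trans (le_max_left _ _)
      have hb0 : ‖gu w.1‖ ≤ M := (norm_le_pi_norm (gam w.1) 0).trans hb
      have hb1 : ‖gv w.1‖ ≤ M := (norm_le_pi_norm (gam w.1) 1).trans hb
      exact ⟨⟨bound_lower w.2 hM1 hb1, bound_upper w.2 hM1 hb0⟩, hw⟩
    · rintro ⟨hz, hzK⟩
      exact ⟨⟨z, hsub hz⟩, hzK, rfl⟩
  rw [himg]
  have hclosed : IsClosed ({z : ℂ | M⁻¹ ≤ ‖z‖ ∧ ‖z‖ ≤ M} ∩ gam ⁻¹' K) :=
    (continuousOn_gam.mono hsub).preimage_isClosed_of_isClosed hA hK.isClosed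
  have hbdd : Bornology.IsBounded ({z : ℂ | M⁻¹ ≤ ‖z‖ ∧ ‖z‖ ≤ M} ∩ gam ⁻¹' K) := by
    refine (Metric.isBounded_closedBall (x := (0 : ℂ)) (r := M)).subset ?_
    rintro z ⟨⟨-, h2⟩, -⟩
    simpa using h2
  exact Metric.isCompact_of_isClosed_isBounded hclosed hbdd

lemma par_isClosedMap : IsClosedMap par := by
  intro s hs
  have h := par_val_proper.isClosedMap s hs
  have : par '' s = Subtype.val ⁻¹' ((fun z : {z : ℂ // z ≠ 0} => gam z.1) '' s) := by
    ext q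
    constructor
    · rintro ⟨z, hz, rfl⟩
      exact ⟨z, hz, rfl⟩
    · rintro ⟨z, hz, h⟩
      exact ⟨z, hz, Subtype.ext h⟩
  rw [this]
  exact h.preimage continuous_subtype_val

/-- The curve is homeomorphic to the punctured plane. -/
noncomputable def homeo : {z : ℂ // z ≠ 0} ≃ₜ ↥Crv :=
  (IsClosedEmbedding.of_continuous_injective_isClosedMap par_continuous par_injective
    par_isClosedMap).isEmbedding.toHomeomorphOfSurjective par_surjective

/-- Every element of the fundamental group is a power of one fixed element. -/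
lemma cyclic_fundamentalGroup (x₀ : ↥Crv) :
    ∃ γ₀ : FundamentalGroup ↥Crv x₀, ∀ γ : FundamentalGroup ↥Crv x₀, ∃ n : ℤ, γ = γ₀ ^ n := by
  have hp := Complex.isAddQuotientCoveringMap_exp.homeomorph_comp homeo
  obtain ⟨e, he⟩ := hp.surjective x₀
  have E := hp.fundamentalGroupEquiv ⟨e, he⟩
  refine ⟨E.symm (MulOpposite.op (Multiplicative.ofAdd ⟨2 * Real.pi * Complex.I,
    AddSubgroup.mem_zmultiples _⟩)), ?_⟩
  intro γ
  obtain ⟨a, ha⟩ : ∃ a, E γ = MulOpposite.op (Multiplicative.ofAdd a) := ⟨_, rfl⟩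
  obtain ⟨n, hn⟩ := AddSubgroup.mem_zmultiples_iff.mp a.2
  refine ⟨n, ?_⟩
  apply E.injective
  rw [map_zpow, E.apply_symm_apply, ha, ← MulOpposite.op_zpow, ← ofAdd_zsmul]
  congr 2
  exact Subtype.ext hn.symm

lemma finrank_le (x₀ : ↥Crv) :
    Module.finrank ℤ (Additive (Abelianization (FundamentalGroup ↥Crv x₀))) ≤ 1 := by
  obtain ⟨γ₀, h⟩ := cyclic_fundamentalGroup x₀
  refine finrank_le_one (Additive.ofMul (Abelianization.of γ₀)) ?_
  intro w
  obtain ⟨γ, hγ⟩ := QuotientGroup.mk_surjective (Additive.toMul w)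
  obtain ⟨n, hn⟩ := h γ
  refine ⟨n, ?_⟩
  rw [← ofMul_zpow, ← map_zpow, ← hn]
  exact congrArg Additive.ofMul hγ

end Pool.Agent.J6H59.Deltoid
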