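import Mathlib
import Pool.Agent.J6H59.Deltoid.Top

set_option autoImplicit false

/-!
# The singular points of the deltoid are three unibranch points
-/

namespace Pool.Agent.J6H59.Deltoid

open MvPolynomial Topology

lemma eval_pderiv_zero (q : Fin 2 → ℂ) :
    MvPolynomial.eval q (pderiv 0 f) = 2 * q 0 * q 1 ^ 2 - 12 * q 0 ^ 2 + 18 * q 1 := by
  have h4 : (4 : MvPolynomial (Fin 2) ℂ) = C 4 := (map_ofNat C 4).symm
  have h18 : (18 : MvPolynomial (Fin 2) ℂ) = C 18 := (map_ofNat C 18).symm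
  have h27 : (27 : MvPolynomial (Fin 2) ℂ) = C 27 := (map_ofNat C 27).symm
  rw [f, h4, h18, h27]
  simp [pderiv_X, Derivation.leibniz, Derivation.leibniz_pow]
  ring

lemma eval_pderiv_one (q : Fin 2 → ℂ) :
    MvPolynomial.eval q (pderiv 1 f) = 2 * q 0 ^ 2 * q 1 - 12 * q 1 ^ 2 + 18 * q 0 := by
  have h4 : (4 : MvPolynomial (Fin 2) ℂ) = C 4 := (map_ofNat C 4).symm
  have h18 : (18 : MvPolynomial (Fin 2) ℂ) = C 18 := (map_ofNat C 18).symm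
  have h27 : (27 : MvPolynomial (Fin 2) ℂ) = C 27 := (map_ofNat C 27).symm
  rw [f, h4, h18, h27]
  simp [pderiv_X, Derivation.leibniz, Derivation.leibniz_pow]
  ring

lemma sing_param {z : ℂ} (hz : z ≠ 0) (h : MvPolynomial.eval (gam z) (pderiv 0 f) = 0) :
    z ^ 3 = 1 := by
  rw [eval_pderiv_zero, gam_zero, gam_one] at h
  have key : (2 * gu z * gv z ^ 2 - 12 * gu z ^ 2 + 18 * gv z) * z ^ 4 = 4 * (z ^ 3 - 1) ^ 3 := by
    rw [gu, gv]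
    field_simp
    ring
  rw [h, zero_mul] at key
  have : (z ^ 3 - 1) ^ 3 = 0 := by
    have h4 : (4 : ℂ) ≠ 0 := by norm_num
    exact (mul_eq_zero.mp key.symm).resolve_left h4
  exact sub_eq_zero.mp (pow_eq_zero_iff (by norm_num) |>.mp this)

lemma gu_root {ζ : ℂ} (hζ : ζ ^ 3 = 1) (z : ℂ) : gu (ζ * z) = ζ * gu z := by
  have hζ0 : ζ ≠ 0 := by rintro rfl; norm_num at hζ
  have hi : ζ⁻¹ = ζ ^ 2 := inv_eq_of_mul_eq_one_right (by linear_combination hζ)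
  rw [gu, gu, mul_inv, hi]
  linear_combination (ζ * z⁻¹ ^ 2) * hζ

lemma gv_root {ζ : ℂ} (hζ : ζ ^ 3 = 1) (z : ℂ) : gv (ζ * z) = ζ ^ 2 * gv z := by
  have hζ0 : ζ ≠ 0 := by rintro rfl; norm_num at hζ
  have hi : ζ⁻¹ = ζ ^ 2 := inv_eq_of_mul_eq_one_right (by linear_combination hζ)
  rw [gv, gv, mul_inv, hi]
  ring

lemma gam_root {ζ : ℂ} (hζ : ζ ^ 3 = 1) : gam ζ = ![3 * ζ, 3 * ζ ^ 2] := by
  have h0 := gu_root hζ 1
  have h1 := gv_root hζ 1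
  rw [mul_one] at h0 h1
  ext i
  fin_cases i
  · show gu ζ = 3 * ζ
    rw [h0, gu]; norm_num; ring
  · show gv ζ = 3 * ζ ^ 2
    rw [h1, gv]; norm_num; ring

/-- The parameter set around the cusp. -/
def T (δ : ℝ) : Set ℂ :=
  {h : ℂ | h ≠ 0 ∧ 1 + h ≠ 0 ∧ ‖gu (1 + h) - 3‖ ^ 2 + ‖gv (1 + h) - 3‖ ^ 2 < δ ^ 2}

lemma norm_gu {h : ℂ} (h1 : 1 + h ≠ 0) :
    ‖gu (1 + h) - 3‖ = ‖h‖ ^ 2 * ‖3 + 2 * h‖ / ‖1 + h‖ ^ 2 := by
  have : gu (1 + h) - 3 = h ^ 2 * (3 + 2 * h) / (1 + h) ^ 2 := by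
    rw [gu]; field_simp; ring
  rw [this, norm_div, norm_mul, norm_pow, norm_pow]

lemma norm_gv {h : ℂ} (h1 : 1 + h ≠ 0) :
    ‖gv (1 + h) - 3‖ = ‖h‖ ^ 2 * ‖3 + h‖ / ‖1 + h‖ := by
  have : gv (1 + h) - 3 = h ^ 2 * (3 + h) / (1 + h) := by
    rw [gv]; field_simp; ring
  rw [this, norm_div, norm_mul, norm_pow]

lemma one_add_ne {h : ℂ} (hh : ‖h‖ < 1) : 1 + h ≠ 0 := by
  intro h0
  have : h = -1 := by linear_combination h0
  rw [this, norm_neg, norm_one] at hh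
  exact lt_irrefl _ hh

lemma norm_sq_one_add (h : ℂ) (l : ℝ) (_hl0 : 0 ≤ l) (hl1 : l ≤ 1) (hh : ‖h‖ ≤ 1) :
    l * ‖1 + h‖ ^ 2 ≤ ‖1 + l * h‖ ^ 2 := by
  have e1 : ‖1 + h‖ ^ 2 = 1 + 2 * h.re + ‖h‖ ^ 2 := by
    rw [Complex.sq_norm, Complex.sq_norm, Complex.normSq_apply, Complex.normSq_apply]
    simp; ring
  have e2 : ‖1 + l * h‖ ^ 2 = 1 + 2 * l * h.re + l ^ 2 * ‖h‖ ^ 2 := by
    rw [Complex.sq_norm, Complex.sq_norm, Complex.normSq_apply, Complex.normSq_apply]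
    simp; ring
  rw [e1, e2]
  have : ‖h‖ ^ 2 ≤ 1 := pow_le_one₀ (norm_nonneg _) hh
  nlinarith [mul_nonneg (sub_nonneg.mpr hl1) (sub_nonneg.mpr
    (mul_le_one₀ hl1 (by positivity) this))]

lemma norm_one_add' (h : ℂ) (l : ℝ) (hl0 : 0 ≤ l) (hl1 : l ≤ 1) (hh : ‖h‖ ≤ 1) :
    l * ‖1 + h‖ ≤ ‖1 + l * h‖ := by
  have h1 := norm_sq_one_add h l hl0 hl1 hh
  have h2 : (l * ‖1 + h‖) ^ 2 ≤ ‖1 + l * h‖ ^ 2 := by
    calc (l * ‖1 + h‖) ^ 2 = l * (l * ‖1 + h‖ ^ 2) := by ring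
      _ ≤ 1 * (l * ‖1 + h‖ ^ 2) := by gcongr
      _ ≤ _ := by rw [one_mul]; exact h1
  exact (pow_le_pow_iff_left₀ (by positivity) (norm_nonneg _) two_ne_zero).mp h2

lemma norm_three_add (k : ℂ) (l : ℝ) (hl0 : 0 ≤ l) (hl1 : l ≤ 1) (hh : ‖k‖ ≤ 1) :
    l * ‖3 + l * k‖ ≤ ‖3 + k‖ := by
  have h1 : ‖3 + l * k‖ ≤ ‖3 + k‖ + (1 - l) * ‖k‖ := by
    have : 3 + l * k = (3 + k) - ((1 - l : ℝ) : ℂ) * k := by push_cast; ring
    rw [this]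
    refine (norm_sub_le _ _).trans ?_
    rw [norm_mul, Complex.norm_real, Real.norm_of_nonneg (by linarith)]
  have h2 : 2 ≤ ‖3 + k‖ := by
    have h3 : ‖(3 : ℂ)‖ = 3 := by simp
    have : ‖(3 : ℂ)‖ - ‖k‖ ≤ ‖3 + k‖ := by
      have := norm_sub_norm_le (3 : ℂ) (-k)
      simpa using this
    rw [h3] at this
    linarith
  have hk := norm_nonneg k
  nlinarith [mul_nonneg hl0 (sub_nonneg.mpr h1), mul_nonneg (sub_nonneg.mpr hl1) hk,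
    mul_nonneg (sub_nonneg.mpr hl1) (sub_nonneg.mpr h2),
    mul_nonneg (mul_nonneg hl0 (sub_nonneg.mpr hl1)) (sub_nonneg.mpr hh)]

lemma star {δ : ℝ} {h : ℂ} (hh : ‖h‖ < 1 / 2) (hT : h ∈ T δ) {l : ℝ} (hl0 : 0 < l) (hl1 : l ≤ 1) :
    (l : ℂ) * h ∈ T δ := by
  obtain ⟨h0, h1, h2⟩ := hT
  have hlh : ‖(l : ℂ) * h‖ = l * ‖h‖ := by
    rw [norm_mul, Complex.norm_real, Real.norm_of_nonneg hl0.le]
  have hle : ‖(l : ℂ) * h‖ ≤ ‖h‖ := by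
    rw [hlh]; exact mul_le_of_le_one_left (norm_nonneg _) hl1
  have h1' : 1 + (l : ℂ) * h ≠ 0 := one_add_ne (by linarith)
  refine ⟨mul_ne_zero (by exact_mod_cast hl0.ne') h0, h1', lt_of_le_of_lt ?_ h2⟩
  have n0 : 0 < ‖1 + h‖ := norm_pos_iff.mpr h1
  have n1 : 0 < ‖1 + l * h‖ := norm_pos_iff.mpr h1'
  have p1 := norm_sq_one_add h l hl0.le hl1 (by linarith)
  have p2 := norm_one_add' h l hl0.le hl1 (by linarith)
  have p3 : l * ‖3 + 2 * (l * h)‖ ≤ ‖3 + 2 * h‖ := by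
    have := norm_three_add (2 * h) l hl0.le hl1 (by rw [norm_mul]; simp; linarith)
    rwa [show (l : ℂ) * (2 * h) = 2 * (l * h) by ring] at this
  have p4 := norm_three_add h l hl0.le hl1 (by linarith)
  have A : ‖gu (1 + l * h) - 3‖ ≤ ‖gu (1 + h) - 3‖ := by
    rw [norm_gu h1, norm_gu h1', hlh]
    rw [div_le_div_iff₀ (by positivity) (by positivity)]
    calc (l * ‖h‖) ^ 2 * ‖3 + 2 * (l * h)‖ * ‖1 + h‖ ^ 2
        = ‖h‖ ^ 2 * (l * ‖3 + 2 * (l * h)‖) * (l * ‖1 + h‖ ^ 2) := by ring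
      _ ≤ ‖h‖ ^ 2 * ‖3 + 2 * h‖ * ‖1 + l * h‖ ^ 2 := by gcongr
  have B : ‖gv (1 + l * h) - 3‖ ≤ ‖gv (1 + h) - 3‖ := by
    rw [norm_gv h1, norm_gv h1', hlh]
    rw [div_le_div_iff₀ (by positivity) (by positivity)]
    calc (l * ‖h‖) ^ 2 * ‖3 + (l * h)‖ * ‖1 + h‖
        = ‖h‖ ^ 2 * (l * ‖3 + (l * h)‖) * (l * ‖1 + h‖) := by ring
      _ ≤ ‖h‖ ^ 2 * ‖3 + h‖ * ‖1 + l * h‖ := by gcongr
  gcongr

/-- Near the cusp, small points are in `T δ`. -/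
lemma small_mem {δ : ℝ} (hδ0 : 0 < δ) (hδ1 : δ < 1) {h : ℂ} (h0 : h ≠ 0) (hh : ‖h‖ ≤ δ / 20) :
    h ∈ T δ := by
  have hh2 : ‖h‖ ≤ 1 / 2 := by linarith
  have h1 : 1 + h ≠ 0 := one_add_ne (by linarith)
  refine ⟨h0, h1, ?_⟩
  have n1 : 1 / 2 ≤ ‖1 + h‖ := by
    have := norm_sub_norm_le (1 : ℂ) (-h)
    simp only [norm_one, norm_neg, sub_neg_eq_add] at this
    linarith
  have n3 : ‖3 + 2 * h‖ ≤ 4 := by
    refine (norm_add_le _ _).trans ?_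
    rw [norm_mul]; simp; linarith
  have n4 : ‖3 + h‖ ≤ 4 := by
    refine (norm_add_le _ _).trans ?_
    simp; linarith
  have hn : ‖h‖ ^ 2 ≤ δ * (1 / 400) := by
    calc ‖h‖ ^ 2 ≤ (δ / 20) ^ 2 := by gcongr
      _ = δ * δ * (1 / 400) := by ring
      _ ≤ δ * 1 * (1 / 400) := by gcongr
      _ = _ := by ring
  have A : ‖gu (1 + h) - 3‖ ≤ δ / 2 := by
    rw [norm_gu h1, div_le_iff₀ (by positivity)]
    calc ‖h‖ ^ 2 * ‖3 + 2 * h‖ ≤ (δ * (1 / 400)) * 4 := by gcongr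
      _ ≤ δ / 2 * (1 / 2) ^ 2 := by linarith
      _ ≤ _ := by gcongr
  have B : ‖gv (1 + h) - 3‖ ≤ δ / 2 := by
    rw [norm_gv h1, div_le_iff₀ (by positivity)]
    calc ‖h‖ ^ 2 * ‖3 + h‖ ≤ (δ * (1 / 400)) * 4 := by gcongr
      _ ≤ δ / 2 * (1 / 2) := by linarith
      _ ≤ _ := by gcongr
  calc ‖gu (1 + h) - 3‖ ^ 2 + ‖gv (1 + h) - 3‖ ^ 2 ≤ (δ / 2) ^ 2 + (δ / 2) ^ 2 := by gcongr
    _ < δ ^ 2 := by nlinarith

/-- For small `δ`, the set `T δ` lies in the disc of radius `1/2`. -/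
lemma T_subset {δ : ℝ} (hδ0 : 0 < δ) (hδ1 : δ < 1 / 16) {h : ℂ} (hT : h ∈ T δ) : ‖h‖ < 1 / 2 := by
  by_contra hge
  push Not at hge
  obtain ⟨h0, h1, h2⟩ := hT
  have hA : ‖gu (1 + h) - 3‖ < 1 / 16 := by
    have : ‖gu (1 + h) - 3‖ ^ 2 < δ ^ 2 := by
      have := sq_nonneg ‖gv (1 + h) - 3‖
      linarith
    have := (pow_lt_pow_iff_left₀ (norm_nonneg _) hδ0.le two_ne_zero).mp this
    linarith
  have hB : ‖gv (1 + h) - 3‖ < 1 / 16 := by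
    have : ‖gv (1 + h) - 3‖ ^ 2 < δ ^ 2 := by
      have := sq_nonneg ‖gu (1 + h) - 3‖
      linarith
    have := (pow_lt_pow_iff_left₀ (norm_nonneg _) hδ0.le two_ne_zero).mp this
    linarith
  have n0 : 0 < ‖1 + h‖ := norm_pos_iff.mpr h1
  rw [norm_gu h1, div_lt_iff₀ (by positivity)] at hA
  rw [norm_gv h1, div_lt_iff₀ n0] at hB
  by_cases hz : ‖1 + h‖ ≤ 1
  · -- `|z + 2| ≥ 1`
    have : 1 ≤ ‖3 + h‖ := by
      have := norm_sub_norm_le (2 : ℂ) (-(1 + h))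
      rw [norm_neg, show (2 : ℂ) - -(1 + h) = 3 + h by ring] at this
      simp only [Complex.norm_ofNat] at this
      linarith
    have h4 : (1 / 2) ^ 2 * 1 ≤ ‖h‖ ^ 2 * ‖3 + h‖ := by gcongr
    linarith
  · push Not at hz
    have h5 : 2 * ‖1 + h‖ - 1 ≤ ‖3 + 2 * h‖ := by
      have := norm_sub_norm_le (2 * (1 + h)) (-1 : ℂ)
      rw [norm_neg, norm_one, norm_mul, show (2 : ℂ) * (1 + h) - -1 = 3 + 2 * h by ring] at this
      simpa using this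
    have h6 : ‖1 + h‖ ≤ 1 + ‖h‖ := by
      refine (norm_add_le _ _).trans ?_
      simp
    have h7 : ‖1 + h‖ ≤ ‖3 + 2 * h‖ := by linarith
    -- `|h| ≥ |1+h|/3` as `|1+h| ≤ 1 + |h| ≤ 3|h|`
    have h8 : ‖1 + h‖ ≤ 3 * ‖h‖ := by linarith
    have h9 : (‖1 + h‖ / 3) ^ 2 * 1 ≤ ‖h‖ ^ 2 * ‖3 + 2 * h‖ := by
      have : ‖1 + h‖ / 3 ≤ ‖h‖ := by linarith
      have h10 : 1 ≤ ‖3 + 2 * h‖ := by linarith
      gcongr
    nlinarith

lemma T_preconnected {δ : ℝ} (hδ0 : 0 < δ) (hδ1 : δ < 1 / 16) : IsPreconnected (T δ) := by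
  apply isPreconnected_of_forall_pair
  intro x hx y hy
  have hx0 : 0 < ‖x‖ := norm_pos_iff.mpr hx.1
  have hy0 : 0 < ‖y‖ := norm_pos_iff.mpr hy.1
  set ρ : ℝ := min (δ / 20) (min ‖x‖ ‖y‖) with hρ
  have hρ0 : 0 < ρ := lt_min (by positivity) (lt_min hx0 hy0)
  have hρδ : ρ ≤ δ / 20 := min_le_left _ _
  have hρx : ρ ≤ ‖x‖ := (min_le_right _ _).trans (min_le_left _ _)
  have hρy : ρ ≤ ‖y‖ := (min_le_right _ _).trans (min_le_right _ _)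
  have seg : ∀ w : ℂ, w ∈ T δ → 0 < ‖w‖ → ρ ≤ ‖w‖ →
      IsPreconnected ((fun l : ℝ => (l : ℂ) * w) '' Set.Icc (ρ / ‖w‖) 1) ∧
      ((fun l : ℝ => (l : ℂ) * w) '' Set.Icc (ρ / ‖w‖) 1) ⊆ T δ ∧
      w ∈ ((fun l : ℝ => (l : ℂ) * w) '' Set.Icc (ρ / ‖w‖) 1) ∧
      ((ρ / ‖w‖ : ℝ) : ℂ) * w ∈ ((fun l : ℝ => (l : ℂ) * w) '' Set.Icc (ρ / ‖w‖) 1) ∧
      ((ρ / ‖w‖ : ℝ) : ℂ) * w ∈ Metric.sphere (0 : ℂ) ρ := by
    intro w hw hw0 hρw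
    have hle : ρ / ‖w‖ ≤ 1 := (div_le_one hw0).mpr hρw
    have hpos : 0 < ρ / ‖w‖ := by positivity
    refine ⟨isPreconnected_Icc.image _ (by fun_prop), ?_, ⟨1, ⟨hle, le_refl _⟩, by simp⟩,
      ⟨_, ⟨le_refl _, hle⟩, rfl⟩, ?_⟩
    · rintro _ ⟨l, ⟨hl1, hl2⟩, rfl⟩
      exact star (T_subset hδ0 hδ1 hw) hw (by linarith) hl2
    · rw [mem_sphere_zero_iff_norm, norm_mul, Complex.norm_real, Real.norm_of_nonneg hpos.le]
      field_simp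
  obtain ⟨x1, x2, x3, x4, x5⟩ := seg x hx hx0 hρx
  obtain ⟨y1, y2, y3, y4, y5⟩ := seg y hy hy0 hρy
  have hsph : IsPreconnected (Metric.sphere (0 : ℂ) ρ) := by
    apply isPreconnected_sphere
    rw [Complex.rank_real_complex]
    exact Cardinal.one_lt_two
  have hsphT : Metric.sphere (0 : ℂ) ρ ⊆ T δ := by
    intro w hw
    rw [mem_sphere_zero_iff_norm] at hw
    apply small_mem hδ0 (by linarith) _ (by rw [hw]; exact hρδ)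
    rintro rfl
    rw [norm_zero] at hw
    exact hρ0.ne hw
  refine ⟨((fun l : ℝ => (l : ℂ) * x) '' Set.Icc (ρ / ‖x‖) 1) ∪ Metric.sphere (0 : ℂ) ρ ∪
    ((fun l : ℝ => (l : ℂ) * y) '' Set.Icc (ρ / ‖y‖) 1), ?_, ?_, ?_, ?_⟩
  · exact Set.union_subset (Set.union_subset x2 hsphT) y2
  · exact Or.inl (Or.inl x3)
  · exact Or.inr y3
  · exact (x1.union _ x4 x5 hsph).union _ (Or.inr y5) y4 y1

/-- Each of the three cusps is a unibranch point. -/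
lemma cusp {ζ : ℂ} (hζ : ζ ^ 3 = 1) {δ : ℝ} (hδ0 : 0 < δ) (hδ1 : δ < 1 / 16) :
    IsPreconnected {q : Fin 2 → ℂ | MvPolynomial.eval q f = 0 ∧ q ≠ gam ζ ∧
      ‖q 0 - gam ζ 0‖ ^ 2 + ‖q 1 - gam ζ 1‖ ^ 2 < δ ^ 2} := by
  have hζ0 : ζ ≠ 0 := by rintro rfl; norm_num at hζ
  have hζn : ‖ζ‖ = 1 := by
    have : ‖ζ‖ ^ 3 = 1 := by rw [← norm_pow, hζ, norm_one]
    exact (pow_eq_one_iff_of_nonneg (norm_nonneg _) (by norm_num)).mp this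
  have himg : {q : Fin 2 → ℂ | MvPolynomial.eval q f = 0 ∧ q ≠ gam ζ ∧
      ‖q 0 - gam ζ 0‖ ^ 2 + ‖q 1 - gam ζ 1‖ ^ 2 < δ ^ 2}
      = (fun h : ℂ => gam (ζ * (1 + h))) '' T δ := by
    have e0 : gam ζ 0 = ζ * 3 := by rw [gam_root hζ]; simp; ring
    have e1 : gam ζ 1 = ζ ^ 2 * 3 := by rw [gam_root hζ]; simp; ring
    ext q
    constructor
    · rintro ⟨q1, q2, q3⟩
      obtain ⟨z, hz, rfl⟩ := exists_gam q q1
      refine ⟨z / ζ - 1, ⟨?_, ?_, ?_⟩, ?_⟩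
      · intro h0
        apply q2
        have : z = ζ := by
          have : z / ζ = 1 := by linear_combination h0
          field_simp at this
          exact this
        rw [this]
      · rw [show 1 + (z / ζ - 1) = z / ζ by ring]
        exact div_ne_zero hz hζ0
      · rw [show 1 + (z / ζ - 1) = z / ζ by ring]
        have hz' : z = ζ * (z / ζ) := by field_simp
        rw [e0, e1, gam_zero, gam_one, hz', gu_root hζ, gv_root hζ, ← mul_sub, ← mul_sub, norm_mul,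
          norm_mul, norm_pow, hζn] at q3
        simpa using q3
      · show gam (ζ * (1 + (z / ζ - 1))) = gam z
        congr 1
        field_simp
        ring
    · rintro ⟨h, ⟨h0, h1, h2⟩, rfl⟩
      have hne : ζ * (1 + h) ≠ 0 := mul_ne_zero hζ0 h1
      refine ⟨eval_gam _ hne, ?_, ?_⟩
      · intro heq
        have := gam_inj hne hζ0 heq
        apply h0
        have h3 : ζ * h = 0 := by linear_combination this
        exact (mul_eq_zero.mp h3).resolve_left hζ0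
      · show ‖gu (ζ * (1 + h)) - gam ζ 0‖ ^ 2 + ‖gv (ζ * (1 + h)) - gam ζ 1‖ ^ 2 < δ ^ 2
        rw [e0, e1, gu_root hζ, gv_root hζ, ← mul_sub, ← mul_sub, norm_mul,
          norm_mul, norm_pow, hζn]
        simpa using h2
  rw [himg]
  apply (T_preconnected hδ0 hδ1).image
  apply continuousOn_gam.comp (by fun_prop)
  rintro h ⟨h0, h1, h2⟩
  exact mul_ne_zero hζ0 h1

end Pool.Agent.J6H59.Deltoid
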